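import Pool.Agent.Helper50.BC.Goals

set_option autoImplicit false

/-!
# Packet BC-MOM
-/

namespace Pool.Agent.Helper12.BC

open Real Finset Pool.Agent.Helper50.BC

theorem amgm3 (x y z : ℝ) (hx : 0 ≤ x) (hy : 0 ≤ y) (hz : 0 ≤ z) :
    x * y * z ≤ (x ^ 3 + y ^ 3 + z ^ 3) / 3 := by
  have h : x ^ 3 + y ^ 3 + z ^ 3 - 3 * (x * y * z) =
      (x + y + z) * ((x - y) ^ 2 + (y - z) ^ 2 + (z - x) ^ 2) / 2 := by ring
  have h2 : 0 ≤ (x + y + z) * ((x - y) ^ 2 + (y - z) ^ 2 + (z - x) ^ 2) / 2 := by positivity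
  linarith

theorem goalMOM (hR : G_RAD) : G_MOM := by
  intro q u v w
  have hn : ∀ x : E q, ‖x‖ ^ 2 = ∑ i, (x i) ^ 2 := fun x => EuclideanSpace.real_norm_sq_eq x
  have hc : Fintype.card (Fin q) = q := Fintype.card_fin q
  have m2 : ∀ x : E q, ∑ e : Fin q → Bool, (pr e x) ^ 2 = 2 ^ q * ‖x‖ ^ 2 := by
    intro x
    have h := (hR (Fin q) (fun i => x i)).1
    rw [hc, ← hn] at h
    exact h
  have m4 : ∀ x : E q, ∑ e : Fin q → Bool, (pr e x) ^ 4 ≤ 2 ^ q * (3 * (‖x‖ ^ 2) ^ 2) := by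
    intro x
    have h := (hR (Fin q) (fun i => x i)).2.1
    rw [hc, ← hn] at h
    exact h
  have m6 : ∀ x : E q, ∑ e : Fin q → Bool, (pr e x) ^ 6 ≤ 2 ^ q * (15 * (‖x‖ ^ 2) ^ 3) := by
    intro x
    have h := (hR (Fin q) (fun i => x i)).2.2.1
    rw [hc, ← hn] at h
    exact h
  have hz : ∀ x : E q, ‖x‖ = 0 → ∀ e : Fin q → Bool, pr e x = 0 := by
    intro x hx e
    have : x = 0 := norm_eq_zero.mp hx
    subst this
    simp [pr]
  refine ⟨m2 u, ?_, ?_⟩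
  · have cs := Finset.sum_mul_sq_le_sq_mul_sq (Finset.univ : Finset (Fin q → Bool))
      (fun e => (pr e u) ^ 2) (fun e => (pr e v) ^ 2)
    have e1 : ∀ e : Fin q → Bool, ((pr e u) ^ 2) ^ 2 = (pr e u) ^ 4 := fun e => by ring
    have e2 : ∀ e : Fin q → Bool, ((pr e v) ^ 2) ^ 2 = (pr e v) ^ 4 := fun e => by ring
    have e3 : ∀ e : Fin q → Bool, (pr e u) ^ 2 * (pr e v) ^ 2 = (pr e u * pr e v) ^ 2 :=
      fun e => by ring
    simp only [e1, e2, e3] at cs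
    have hS : 0 ≤ ∑ e : Fin q → Bool, (pr e u * pr e v) ^ 2 :=
      Finset.sum_nonneg fun e _ => sq_nonneg _
    have hu := m4 u
    have hv := m4 v
    have hu0 : 0 ≤ ∑ e : Fin q → Bool, (pr e u) ^ 4 := Finset.sum_nonneg fun e _ => by positivity
    have hv0 : 0 ≤ ∑ e : Fin q → Bool, (pr e v) ^ 4 := Finset.sum_nonneg fun e _ => by positivity
    have hb : 0 ≤ (2 : ℝ) ^ q * (3 * (‖u‖ ^ 2 * ‖v‖ ^ 2)) := by positivity
    apply abs_le_of_sq_le_sq' _ hb |>.2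
    calc (∑ e : Fin q → Bool, (pr e u * pr e v) ^ 2) ^ 2
        ≤ (∑ e : Fin q → Bool, (pr e u) ^ 4) * ∑ e : Fin q → Bool, (pr e v) ^ 4 := cs
      _ ≤ (2 ^ q * (3 * (‖u‖ ^ 2) ^ 2)) * (2 ^ q * (3 * (‖v‖ ^ 2) ^ 2)) :=
          mul_le_mul hu hv hv0 (by positivity)
      _ = (2 ^ q * (3 * (‖u‖ ^ 2 * ‖v‖ ^ 2))) ^ 2 := by ring
  · by_cases hu : ‖u‖ = 0
    · have : ∀ e : Fin q → Bool, (pr e u * pr e v * pr e w) ^ 2 = 0 := fun e => by
        rw [hz u hu e]; ring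
      simp only [this, Finset.sum_const_zero]
      positivity
    by_cases hv : ‖v‖ = 0
    · have : ∀ e : Fin q → Bool, (pr e u * pr e v * pr e w) ^ 2 = 0 := fun e => by
        rw [hz v hv e]; ring
      simp only [this, Finset.sum_const_zero]
      positivity
    by_cases hw : ‖w‖ = 0
    · have : ∀ e : Fin q → Bool, (pr e u * pr e v * pr e w) ^ 2 = 0 := fun e => by
        rw [hz w hw e]; ring
      simp only [this, Finset.sum_const_zero]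
      positivity
    have hA : 0 < ‖u‖ ^ 2 := by positivity
    have hB : 0 < ‖v‖ ^ 2 := by positivity
    have hC : 0 < ‖w‖ ^ 2 := by positivity
    have h6u := m6 u
    have h6v := m6 v
    have h6w := m6 w
    have key : ∀ e : Fin q → Bool, (pr e u * pr e v * pr e w) ^ 2 ≤
        (‖u‖ ^ 2 * ‖v‖ ^ 2 * ‖w‖ ^ 2) * (((pr e u) ^ 6 / (‖u‖ ^ 2) ^ 3 +
          (pr e v) ^ 6 / (‖v‖ ^ 2) ^ 3 + (pr e w) ^ 6 / (‖w‖ ^ 2) ^ 3) / 3) := by
      intro e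
      have h := amgm3 ((pr e u) ^ 2 / ‖u‖ ^ 2) ((pr e v) ^ 2 / ‖v‖ ^ 2) ((pr e w) ^ 2 / ‖w‖ ^ 2)
        (by positivity) (by positivity) (by positivity)
      have e1 : (pr e u * pr e v * pr e w) ^ 2 = (‖u‖ ^ 2 * ‖v‖ ^ 2 * ‖w‖ ^ 2) *
          ((pr e u) ^ 2 / ‖u‖ ^ 2 * ((pr e v) ^ 2 / ‖v‖ ^ 2) * ((pr e w) ^ 2 / ‖w‖ ^ 2)) := by
        field_simp
      rw [e1]
      apply mul_le_mul_of_nonneg_left _ (by positivity)
      refine h.trans (le_of_eq ?_)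
      ring
    have hs := Finset.sum_le_sum (s := Finset.univ) fun e (_ : e ∈ Finset.univ) => key e
    refine hs.trans ?_
    rw [← Finset.mul_sum, ← Finset.sum_div, Finset.sum_add_distrib, Finset.sum_add_distrib,
      ← Finset.sum_div, ← Finset.sum_div, ← Finset.sum_div]
    have k1 : (∑ e : Fin q → Bool, (pr e u) ^ 6) / (‖u‖ ^ 2) ^ 3 ≤ 2 ^ q * 15 := by
      rw [div_le_iff₀ (by positivity)]; linarith
    have k2 : (∑ e : Fin q → Bool, (pr e v) ^ 6) / (‖v‖ ^ 2) ^ 3 ≤ 2 ^ q * 15 := by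
      rw [div_le_iff₀ (by positivity)]; linarith
    have k3 : (∑ e : Fin q → Bool, (pr e w) ^ 6) / (‖w‖ ^ 2) ^ 3 ≤ 2 ^ q * 15 := by
      rw [div_le_iff₀ (by positivity)]; linarith
    have k4 : ((∑ e : Fin q → Bool, (pr e u) ^ 6) / (‖u‖ ^ 2) ^ 3 +
        (∑ e : Fin q → Bool, (pr e v) ^ 6) / (‖v‖ ^ 2) ^ 3 +
        (∑ e : Fin q → Bool, (pr e w) ^ 6) / (‖w‖ ^ 2) ^ 3) / 3 ≤ 2 ^ q * 15 := by linarith
    calc _ ≤ (‖u‖ ^ 2 * ‖v‖ ^ 2 * ‖w‖ ^ 2) * (2 ^ q * 15) :=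
          mul_le_mul_of_nonneg_left k4 (by positivity)
      _ = _ := by ring

end Pool.Agent.Helper12.BC
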